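import Pool.Agent.Lib_helper29.SR8

namespace Pool.Agent.Results.MP_346585_al.SerreExcellent

open MvPolynomial

/-- A simplicial complex on `V`: a set of finite subsets of `V` closed under taking subsets. -/
def IsComplex {V : Type*} (Δ : Set (Finset V)) : Prop := ∀ σ ∈ Δ, ∀ τ ⊆ σ, τ ∈ Δ

/-- The Stanley-Reisner ideal, generated by the monomials `∏_{v ∈ τ} x_v` for `τ ⊆ V`, `τ ∉ Δ`. -/
noncomputable def srIdeal (k : Type*) [Field k] {V : Type*} (Δ : Set (Finset V)) :
    Ideal (MvPolynomial V k) :=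
  Ideal.span {f | ∃ τ : Finset V, τ ∉ Δ ∧ f = ∏ v ∈ τ, X v}

/-- The Stanley-Reisner ring `k[Δ]`. -/
abbrev SRRing (k : Type*) [Field k] {V : Type*} (Δ : Set (Finset V)) : Type _ :=
  MvPolynomial V k ⧸ srIdeal k Δ

/-- The depth of a local ring: the supremum of the lengths of the regular sequences all of whose
entries lie in its maximal ideal. -/
noncomputable def localDepth (R : Type*) [CommRing R] [IsLocalRing R] : ℕ∞ :=
  ⨆ rs : {rs : List R // (∀ r ∈ rs, r ∈ IsLocalRing.maximalIdeal R) ∧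
    RingTheory.Sequence.IsRegular R rs}, (rs.1.length : ℕ∞)

/-- Serre's condition `(S_ℓ)` for a ring `R`: `depth R_p ≥ min (ℓ, dim R_p)` for every prime
ideal `p` of `R`. -/
def SerreCondition (R : Type*) [CommRing R] (ℓ : ℕ) : Prop :=
  ∀ (p : Ideal R) [p.IsPrime], min (ℓ : WithBot ℕ∞) (ringKrullDim (Localization.AtPrime p)) ≤
    (localDepth (Localization.AtPrime p) : WithBot ℕ∞)

/-- `F` is a facet (maximal face) of `Δ`. -/
def IsFacet {V : Type*} (Δ : Set (Finset V)) (F : Finset V) : Prop :=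
  F ∈ Δ ∧ ∀ G ∈ Δ, F ⊆ G → G = F

/-- `A` is an independent set of faces of `Δ`. -/
def Independent {V : Type*} [DecidableEq V] (Δ A : Set (Finset V)) : Prop :=
  A ⊆ Δ ∧ ∀ σ ∈ A, ∀ τ ∈ A, σ ≠ τ → σ ∪ τ ∉ Δ

/-- `A` is an excellent set of faces of `Δ`: independent, and every facet contains an element
of `A`. -/
def Excellent {V : Type*} [DecidableEq V] (Δ A : Set (Finset V)) : Prop :=
  Independent Δ A ∧ ∀ F, IsFacet Δ F → ∃ σ ∈ A, σ ⊆ F

/-- The complex `Δ_A`: the faces of `Δ` that contain no element of `A`. -/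
def removeFaces {V : Type*} (Δ A : Set (Finset V)) : Set (Finset V) :=
  {τ | τ ∈ Δ ∧ ¬ ∃ σ ∈ A, σ ⊆ τ}

/-- If `A` is an excellent set of faces of the finite simplicial complex `Δ` and `k[Δ]` satisfies
Serre's condition `(S_ℓ)`, then `k[Δ_A]` satisfies `(S_ℓ)`. -/
theorem result {k : Type*} [Field k] {V : Type*} [Finite V] [DecidableEq V]
    (Δ : Set (Finset V)) (hΔ : IsComplex Δ) (A : Set (Finset V)) (hA : Excellent Δ A)
    (ℓ : ℕ) (h : SerreCondition (SRRing k Δ) ℓ) :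
    SerreCondition (SRRing k (removeFaces Δ A)) ℓ := by
  have hlow : IsLowerSet Δ := fun σ τ hle hσ => hΔ σ hσ τ hle
  have h1 : Lib_helper29.SR.SS (Lib_helper29.SR.srI k Δ) ℓ :=
    (Lib_helper29.SR.Serre_iff _ ℓ).1 h
  have h2 := Lib_helper29.SR.core hlow hA.1.1 hA.1.2 (fun F hF => hA.2 F hF) ℓ h1
  have h3 : Lib_helper29.SR.rem Δ A = removeFaces Δ A := by
    ext τ
    unfold Lib_helper29.SR.rem removeFaces
    simp
  rw [h3] at h2
  exact (Lib_helper29.SR.Serre_iff _ ℓ).2 h2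

end Pool.Agent.Results.MP_346585_al.SerreExcellent
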